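import Mathlib

/-!
# Larsen's conjecture for elliptic curves, characteristic two and the group law (MP_6b5a9a_nt)

Every `T_xxx : Prop` is to be proved as a theorem in its own file.
-/

open Polynomial

namespace Pool.Agent.H13.EC

universe u

/-! ## solving `ψ (R x) = ψ g` -/

/-- GEN: generic points. As a function of `m`, `∑ a i j * (A + 1 / (m i - m j))` is a nonzero
rational function, because of its poles. -/
def T_GEN : Prop := ∀ (F : Type u) [Field F] [Infinite F] (n : ℕ) (A : F)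
  (S : Finset (Fin n → Fin n → F)), (∀ a ∈ S, ∃ i j, i < j ∧ a i j ≠ 0) →
  ∃ m : Fin n → F, Function.Injective m ∧
    ∀ a ∈ S, ∑ i, ∑ j ∈ Finset.Ioi i, a i j * (A + 1 / (m i - m j)) ≠ 0

/-- SURJ: for generic `w` the conditions `ψ (w i * x) = ψ (c i)` can be solved simultaneously. -/
def T_SURJ : Prop := ∀ (F V : Type u) [Field F] [CharP F 2] [AddCommGroup V] [Finite V]
  (ι : Type) [Fintype ι] (ψ : F →+ V), ∃ S : Finset (ι → F), (∀ a ∈ S, a ≠ 0) ∧
    ∀ w : ι → F, (∀ a ∈ S, ∑ i, a i * w i ≠ 0) → ∀ c : ι → F, ∃ x, ∀ i, ψ (w i * x) = ψ (c i)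

/-- ORD: the ordinary case. -/
def T_ORD : Prop := ∀ (F V : Type u) [Field F] [CharP F 2] [AddCommGroup V] [Finite V]
  (ψ : F →+ V) (Γ₀ : Type u) [LinearOrderedCommGroupWithZero Γ₀] (v : Valuation F Γ₀)
  (A C D B g : F), (∀ x, ψ (x ^ 2) = ψ x) → (∀ b : F, ∃ x, v b < v x) → A ≠ 0 →
  ∃ z : F, v B < v z ∧ ψ (A * z + C / z + D / z ^ 2) = ψ g

/-- QM: values of quadratic maps on subgroups of finite index. -/
def T_QM : Prop := ∀ (G V : Type u) [AddCommGroup G] [AddCommGroup V] [Finite V]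
  (Q : G → V) (β : G →+ G →+ V), (∀ g : G, g + g = 0) → (∀ v : V, v + v = 0) →
  (∀ x y, Q (x + y) = Q x + Q y + β x y) →
  (∀ χ : V →+ ZMod 2, χ ≠ 0 → ∀ H : AddSubgroup G, H.FiniteIndex → ∃ x ∈ H, χ (Q x) ≠ 0) →
  ∀ (c : V) (H : AddSubgroup G), H.FiniteIndex → ∃ x ∈ H, Q x = c

/-- NZ: a character does not kill a cubic polynomial on a subgroup of finite index. -/
def T_NZ : Prop := ∀ (F : Type u) [Field F] [Infinite F] [CharP F 2] (χ : F →+ ZMod 2)
  (α a b : F) (H : AddSubgroup F), α ≠ 0 → H.FiniteIndex → (∀ x, χ (x ^ 2) = χ x) →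
  (∀ x ∈ H, χ (α ^ 2 * x ^ 3 + a * x ^ 2 + b * x) = 0) → χ = 0

/-- SS: the supersingular case. -/
def T_SS : Prop := ∀ (F V : Type u) [Field F] [CharP F 2] [AddCommGroup V] [Finite V]
  (ψ : F →+ V) (Γ₀ : Type u) [LinearOrderedCommGroupWithZero Γ₀] (v : Valuation F Γ₀)
  (α a b B g : F), (∀ x, ψ (x ^ 2) = ψ x) → (∀ b : F, ∃ x, v b < v x) → α ≠ 0 →
  ∃ x : F, v B < v x ∧ ψ (α ^ 2 * x ^ 3 + a * x ^ 2 + b * x) = ψ g

/-- COL: both cases together. -/
def T_COL : Prop := ∀ (F V : Type u) [Field F] [CharP F 2] [AddCommGroup V] [Finite V]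
  (ψ : F →+ V) (Γ₀ : Type u) [LinearOrderedCommGroupWithZero Γ₀] (v : Valuation F Γ₀)
  (a1 a2 a3 a4 a6 B g : F), (∀ x, ψ (x ^ 2) = ψ x) → (∀ b : F, ∃ x, v b < v x) →
  (a1 ≠ 0 ∨ a3 ≠ 0) →
  ∃ x : F, v B < v x ∧ a1 * x + a3 ≠ 0 ∧
    ψ ((x ^ 3 + a2 * x ^ 2 + a4 * x + a6) / (a1 * x + a3) ^ 2) = ψ g

/-! ## fields of characteristic two -/

/-- ASK: in a finite extension only finitely many Artin-Schreier classes die. -/
def T_ASK : Prop := ∀ (N M : Type u) [Field N] [CharP N 2] [Field M] [Algebra N M]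
  [FiniteDimensional N M], ∃ n : ℕ, ∀ c : Fin (n + 1) → N,
    (∀ s : Finset (Fin (n + 1)), s.Nonempty → ¬ ∃ r : N, r ^ 2 + r = ∑ i ∈ s, c i) →
    ∃ i, ¬ ∃ r : M, r ^ 2 + r = algebraMap N M (c i)

/-- QF: an element which becomes of the form `k² + k` in `L` only. -/
def T_QF : Prop := ∀ (M L V : Type u) [Field M] [CharP M 2] [Field L] [AddCommGroup V] [Finite V]
  (ι : M →+* L) (ψ : L →+ V) (A : Finset M) (t : M), (∀ x, ψ x = 0 ↔ ∃ k, k ^ 2 + k = x) →
  Subfield.closure (A : Set M) = ⊤ → (∀ p : (ZMod 2)[X], p.eval₂ (ZMod.castHom (dvd_refl 2) M) t = 0 → p = 0) →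
  ∃ g0 : M, (∃ k : L, k ^ 2 + k = ι g0) ∧ ¬ ∃ m : M, m ^ 2 + m = g0

/-- TAU: an automorphism and its Artin-Schreier character. -/
def T_TAU : Prop := ∀ (M Ω : Type u) [Field M] [CharP M 2] [Field Ω] [Algebra M Ω]
  [IsAlgClosed Ω] (g0 : M), (¬ ∃ m : M, m ^ 2 + m = g0) →
  ∃ (τ : Ω ≃ₐ[M] Ω) (χ : M →+ ZMod 2),
    (∀ (x : M) (r : Ω), r ^ 2 + r = algebraMap M Ω x → τ r = r + ((χ x).val : Ω)) ∧ χ g0 = 1

/-- DUP: points with a large coordinate are not torsion. -/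
def T_DUP : Prop := ∀ (M k : Type u) [Field M] [Field k] [DecidableEq k] [CharP k 2]
  (φ : M →+* k) (W : WeierstrassCurve M) (Γ₀ : Type u) [LinearOrderedCommGroupWithZero Γ₀]
  (v : Valuation k Γ₀), (W.a₁ ≠ 0 ∨ W.a₃ ≠ 0) →
  ∃ B : M, ∀ (x y : k) (h : (W.map φ).toAffine.Nonsingular x y), v (φ B) < v x →
    ∀ n : ℕ, n ≠ 0 → n • WeierstrassCurve.Affine.Point.some x y h ≠ 0

/-- AS: the Artin-Schreier classes of a fixed field. -/
def T_AS : Prop := ∀ (F : Type u) [Field F] [CharP F 2] (e : ℕ)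
  (σ : Fin e → (SeparableClosure F ≃ₐ[F] SeparableClosure F)),
  ∃ ψ : (IntermediateField.fixedField (Subgroup.closure (Set.range σ))) →+ (ULift.{u} (Fin e → ZMod 2)),
    ∀ x, ψ x = 0 ↔ ∃ k, k ^ 2 + k = x

open scoped TensorProduct Classical in
/-- RK2: infinite rank in characteristic two. -/
def T_RK2 : Prop := ∀ (K V : Type u) [Field K] [CharP K 2] [AddCommGroup V] [Finite V]
  (ψ : K →+ V) (t : K) (E : WeierstrassCurve K) [E.IsElliptic],
  (∀ x, ψ x = 0 ↔ ∃ k, k ^ 2 + k = x) →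
  (∀ p : (ZMod 2)[X], p.eval₂ (ZMod.castHom (dvd_refl 2) K) t = 0 → p = 0) →
  ¬ FiniteDimensional ℚ (ℚ ⊗[ℤ] E.toAffine.Point)

/-! ## the class group -/

/-- PTM: an ideal of codimension one which is an evaluation is the ideal of a point. -/
def T_PTM : Prop := ∀ (k : Type u) [Field k] (W : WeierstrassCurve.Affine k)
  (h : W.CoordinateRing →ₐ[k] k), ∃ x y : k, W.Equation x y ∧
    RingHom.ker h = WeierstrassCurve.Affine.CoordinateRing.XYIdeal W x (C y)

/-- MIN: every nonzero ideal of finite codimension contains a nonzero element of small degree. -/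
def T_MIN : Prop := ∀ (k : Type u) [Field k] (W : WeierstrassCurve.Affine k)
  (I : Ideal W.CoordinateRing), I ≠ ⊥ →
  Module.Finite k (W.CoordinateRing ⧸ I) ∧ ∃ f ∈ I, f ≠ 0 ∧
    Module.Finite k (W.CoordinateRing ⧸ Ideal.span {f}) ∧
    Module.finrank k (W.CoordinateRing ⧸ Ideal.span {f}) ≤
      Module.finrank k (W.CoordinateRing ⧸ I) + 1

/-- INV: if `I J = (f)` and `I` has codimension at most one more than `(f)`, then `J` is the whole
ring or the kernel of an evaluation. -/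
def T_INV : Prop := ∀ (k R : Type u) [Field k] [CommRing R] [IsDomain R] [Algebra k R]
  (I J : Ideal R) (f : R), f ≠ 0 → I * J = Ideal.span {f} →
  Module.Finite k (R ⧸ Ideal.span {f}) →
  Module.finrank k (R ⧸ Ideal.span {f}) ≤ Module.finrank k (R ⧸ I) + 1 →
  J = ⊤ ∨ ∃ h : R →ₐ[k] k, J = RingHom.ker h

open scoped Classical in
/-- CLS: every ideal class is the class of a point. -/
def T_CLS : Prop := ∀ (k : Type u) [Field k] (W : WeierstrassCurve.Affine k), W.IsElliptic →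
  Function.Surjective (WeierstrassCurve.Affine.Point.toClass (W := W))

/-- ISO: completing the square. -/
def T_ISO : Prop := ∀ (k : Type u) [Field k] (W : WeierstrassCurve k), W.IsElliptic →
  (2 : k) ≠ 0 →
  (C 4 * X ^ 3 + C W.b₂ * X ^ 2 + C (2 * W.b₄) * X + C W.b₆ : k[X]).Separable ∧
  (C 4 * X ^ 3 + C W.b₂ * X ^ 2 + C (2 * W.b₄) * X + C W.b₆ : k[X]).natDegree = 3 ∧
  Nonempty (W.toAffine.CoordinateRing ≃+*
    AdjoinRoot (X ^ 2 - C (C 4 * X ^ 3 + C W.b₂ * X ^ 2 + C (2 * W.b₄) * X + C W.b₆) : k[X][X]))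

open scoped TensorProduct Classical in
/-- RKP: the rank of the group of points and the rank of the Picard group. -/
def T_RKP : Prop := ∀ (k : Type u) [Field k] (W : WeierstrassCurve k) (S : Type u) [CommRing S],
  W.IsElliptic → Nonempty (W.toAffine.CoordinateRing ≃+* S) →
  FiniteDimensional ℚ (ℚ ⊗[ℤ] W.toAffine.Point) →
  FiniteDimensional ℚ (ℚ ⊗[ℤ] Additive (CommRing.Pic S))

end Pool.Agent.H13.EC
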