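import Pool.Agent.H13.EC.RK2
import Pool.Agent.H13.EV.Final
import Pool.Agent.H54.EC.AS
import Pool.Agent.H54.EC.COL
import Pool.Agent.H89.EC.ASK
import Pool.Agent.H14.EC.CLS
import Pool.Agent.H14.EC.ISO
import Pool.Agent.H85.EC.DUP
import Pool.Agent.H85.EC.MIN
import Pool.Agent.H42.EC.GEN
import Pool.Agent.H42.EC.SURJ
import Pool.Agent.H3.EC.INV
import Pool.Agent.H3.EC.PTM
import Pool.Agent.H16.EC.NZ
import Pool.Agent.H12.EC.ORD
import Pool.Agent.H12.EC.QM
import Pool.Agent.H47.EC.QF
import Pool.Agent.H47.EC.TAU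
import Pool.Agent.H48.EC.RKP
import Pool.Agent.H48.EC.SS

/-!
# Larsen's conjecture for elliptic curves, every characteristic (MP_6b5a9a_nt): assembly
-/

open Polynomial

namespace Pool.Agent.H13.EC

open scoped TensorProduct

universe u

/-- a transcendental element of a field which is not algebraic over any finite subfield -/
lemma exists_transcendental (F : Type u) [Field F] [CharP F 2]
    (hF : ∀ k : Subfield F, Finite k → ¬ Algebra.IsAlgebraic k F) :
    ∃ t : F, ∀ p : (ZMod 2)[X], p.eval₂ (ZMod.castHom (dvd_refl 2) F) t = 0 → p = 0 := by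
  by_contra hcon
  push Not at hcon
  have hfin : Finite (ZMod.castHom (dvd_refl 2) F).fieldRange :=
    Finite.of_surjective (ZMod.castHom (dvd_refl 2) F).rangeRestrictField
      (by rintro ⟨x, ⟨y, rfl⟩⟩; exact ⟨y, rfl⟩)
  refine hF _ hfin ⟨fun x => ?_⟩
  obtain ⟨P, hP, hP0⟩ := hcon x
  refine ⟨P.map (ZMod.castHom (dvd_refl 2) F).rangeRestrictField,
    (Polynomial.map_ne_zero_iff (RingHom.injective _)).2 hP0, ?_⟩
  rw [aeval_def, eval₂_map]
  exact hP

/-- finite rank -/
def FD (K : Type u) [Field K] [DecidableEq K] (E : WeierstrassCurve K) : Prop :=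
  FiniteDimensional ℚ (ℚ ⊗[ℤ] E.toAffine.Point)

/-- the group of points does not depend on the decidability instance -/
lemma change_dec {K : Type u} [Field K] (E : WeierstrassCurve K) (d1 d2 : DecidableEq K)
    (h : @FD K _ d1 E) : @FD K _ d2 E := by
  cases Subsingleton.elim d1 d2
  exact h

open scoped Classical in
/-- **all elliptic curves**, every characteristic -/
theorem main' (hAS : T_AS.{u}) (hRK2 : T_RK2.{u}) (hISO : T_ISO.{u}) (hRKP : T_RKP.{u})
    (F : Type u) [Field F]
    (hF : ∀ k : Subfield F, Finite k → ¬ Algebra.IsAlgebraic k F) (e : ℕ)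
    (σ : Fin e → (SeparableClosure F ≃ₐ[F] SeparableClosure F))
    (E : WeierstrassCurve (IntermediateField.fixedField (Subgroup.closure (Set.range σ))))
    [hE : E.IsElliptic] :
    ¬ FiniteDimensional ℚ (ℚ ⊗[ℤ] E.toAffine.Point) := by
  by_cases h2 : (2 : F) = 0
  · have hp : CharP F 2 := CharTwo.of_one_ne_zero_of_two_eq_zero one_ne_zero h2
    obtain ⟨ψ, hψ⟩ := hAS F e σ
    obtain ⟨t, ht⟩ := exists_transcendental F hF
    refine fun hf => hRK2 _ _ ψ (algebraMap F _ t) E hψ (fun p hp0 => ht p ?_)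
      (change_dec E _ _ hf)
    apply (algebraMap F (IntermediateField.fixedField (Subgroup.closure (Set.range σ)))).injective
    rw [hom_eval₂, map_zero, ← hp0]
    congr 1
  · intro hfin
    have h2K : (2 : IntermediateField.fixedField (Subgroup.closure (Set.range σ))) ≠ 0 := by
      intro h
      apply h2
      apply (algebraMap F (IntermediateField.fixedField (Subgroup.closure (Set.range σ)))).injective
      rw [map_ofNat, map_zero]
      exact h
    obtain ⟨hsep, hdeg, hiso⟩ := hISO _ E hE h2K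
    exact Pool.Agent.H13.EV.main F h2 hF e σ _ hsep hdeg.ge (hRKP _ E _ hE hiso (change_dec E _ _ hfin))

open scoped Classical in
/-- **all elliptic curves**, every characteristic -/
theorem main (F : Type u) [Field F]
    (hF : ∀ k : Subfield F, Finite k → ¬ Algebra.IsAlgebraic k F) (e : ℕ)
    (σ : Fin e → (SeparableClosure F ≃ₐ[F] SeparableClosure F))
    (E : WeierstrassCurve (IntermediateField.fixedField (Subgroup.closure (Set.range σ))))
    [E.IsElliptic] :
    ¬ FiniteDimensional ℚ (ℚ ⊗[ℤ] E.toAffine.Point) :=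
  have hCOL : T_COL.{u} := Pool.Agent.H54.EC.col
    (Pool.Agent.H12.EC.ORD.ord Pool.Agent.H42.EC.gen Pool.Agent.H42.EC.surj)
    (Pool.Agent.H48.EC.ss Pool.Agent.H12.EC.QM.qm Pool.Agent.H16.EC.nz)
  main' Pool.Agent.H54.EC.as_
    (rk2 hCOL (Pool.Agent.H47.EC.QF.qf Pool.Agent.H89.EC.ask) Pool.Agent.H47.EC.TAU.tau
      Pool.Agent.H85.EC.pf_DUP)
    Pool.Agent.H14.EC.iso
    (Pool.Agent.H48.EC.rkp (Pool.Agent.H14.EC.cls Pool.Agent.H3.EC.ptm Pool.Agent.H85.EC.pf_MIN
      Pool.Agent.H3.EC.inv)) F hF e σ E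

end Pool.Agent.H13.EC
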