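import Pool.Agent.H13.EC.Defs
import Pool.Agent.H3.HP.VAL
import Pool.Agent.H23.Rank

/-!
# RK2: elliptic curves in characteristic two have infinite rank
-/

open Polynomial

namespace Pool.Agent.H13.EC

open WeierstrassCurve TensorProduct

universe u

lemma closure_top {K : Type u} [Field K] (S : Finset K) :
    ∃ A : Finset (Subfield.closure (S : Set K)), Subfield.closure (A : Set (Subfield.closure (S : Set K))) = ⊤ := by
  classical
  refine ⟨S.attach.image (fun s => ⟨s.1, Subfield.subset_closure s.2⟩), ?_⟩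
  rw [eq_top_iff]
  rintro ⟨x, hx⟩ -
  have h1 : Subfield.closure (S : Set K) ≤ (Subfield.closure ((S.attach.image (fun s => (⟨s.1, Subfield.subset_closure s.2⟩ : Subfield.closure (S : Set K))) : Finset _) : Set (Subfield.closure (S : Set K)))).map (Subfield.subtype _) := by
    rw [Subfield.closure_le]
    intro s hs
    refine Subfield.mem_map.2 ⟨⟨s, Subfield.subset_closure hs⟩, Subfield.subset_closure ?_, rfl⟩
    simp only [Finset.coe_image, Set.mem_image, Finset.mem_coe]
    exact ⟨⟨s, hs⟩, Finset.mem_attach _ _, rfl⟩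
  obtain ⟨y, hy, hxy⟩ := Subfield.mem_map.1 (h1 hx)
  have : y = ⟨x, hx⟩ := Subtype.ext hxy
  rw [← this]
  exact hy

lemma exists_model {K : Type u} [Field K] [DecidableEq K] (t : K) (E : WeierstrassCurve K)
    (T : Finset E.toAffine.Point) :
    ∃ (S : Finset K) (W' : WeierstrassCurve (Subfield.closure (S : Set K))), W'⁄K = E ∧
      t ∈ Subfield.closure (S : Set K) ∧ ∀ P ∈ T, ∀ x y h,
        P = Affine.Point.some x y h → x ∈ Subfield.closure (S : Set K) ∧
          y ∈ Subfield.closure (S : Set K) := by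
  classical
  let cx : E.toAffine.Point → K := fun P => match P with
    | 0 => 0
    | Affine.Point.some x _ _ => x
  let cy : E.toAffine.Point → K := fun P => match P with
    | 0 => 0
    | Affine.Point.some _ y _ => y
  let S : Finset K := {t, E.a₁, E.a₂, E.a₃, E.a₄, E.a₆} ∪ (T.image cx ∪ T.image cy)
  have hS : ∀ z ∈ S, z ∈ Subfield.closure (S : Set K) := fun z hz => Subfield.subset_closure hz
  refine ⟨S, ⟨⟨E.a₁, hS _ (by simp [S])⟩, ⟨E.a₂, hS _ (by simp [S])⟩,
    ⟨E.a₃, hS _ (by simp [S])⟩, ⟨E.a₄, hS _ (by simp [S])⟩, ⟨E.a₆, hS _ (by simp [S])⟩⟩, rfl,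
    hS _ (by simp [S]), ?_⟩
  intro P hP x y h hPe
  refine ⟨hS _ ?_, hS _ ?_⟩
  · apply Finset.mem_union_right
    apply Finset.mem_union_left
    exact Finset.mem_image.2 ⟨P, hP, by rw [hPe]⟩
  · apply Finset.mem_union_right
    apply Finset.mem_union_right
    exact Finset.mem_image.2 ⟨P, hP, by rw [hPe]⟩

open scoped Classical in
lemma rk2_core (hCOL : T_COL.{u}) (hQF : T_QF.{u}) (hTAU : T_TAU.{u}) (hDUP : T_DUP.{u})
    (K V : Type u) [Field K] [CharP K 2] [AddCommGroup V] [Finite V]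
    (ψ : K →+ V) (t : K) (hψ : ∀ x, ψ x = 0 ↔ ∃ k, k ^ 2 + k = x)
    (ht : ∀ p : (ZMod 2)[X], p.eval₂ (ZMod.castHom (dvd_refl 2) K) t = 0 → p = 0)
    (M : Subfield K) (A : Finset M) (hA : Subfield.closure (A : Set M) = ⊤) (htS : t ∈ M)
    (W' : WeierstrassCurve M) (hE : (W'⁄K).IsElliptic) :
    ∃ P : (W'⁄K).toAffine.Point, (∀ n : ℕ, n ≠ 0 → n • P ≠ 0) ∧
      ∃ τ : AlgebraicClosure K →ₐ[M] AlgebraicClosure K,
        Affine.Point.map (W' := W') τ (Affine.Point.map (W' := W')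
          (IsScalarTower.toAlgHom M K (AlgebraicClosure K)) P) =
        - Affine.Point.map (W' := W') (IsScalarTower.toAlgHom M K (AlgebraicClosure K)) P := by
  let tM : M := ⟨t, htS⟩
  have hcharM : CharP M 2 := inferInstance
  have htM : ∀ p : (ZMod 2)[X], p.eval₂ (ZMod.castHom (dvd_refl 2) M) tM = 0 → p = 0 := by
    intro p hp
    apply ht
    have h1 := congrArg (M.subtype) hp
    rw [hom_eval₂, map_zero] at h1
    have h2 : M.subtype.comp (ZMod.castHom (dvd_refl 2) M) = ZMod.castHom (dvd_refl 2) K :=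
      Subsingleton.elim _ _
    rw [h2] at h1
    exact h1
  obtain ⟨g0, ⟨k0, hk0⟩, hg0⟩ := hQF M K V M.subtype ψ A tM hψ hA htM
  obtain ⟨τ, χ, hτ, hχ⟩ := hTAU M (AlgebraicClosure K) g0 hg0
  have h2K : (2 : K) = 0 := CharTwo.two_eq_zero
  have h2M : (2 : M) = 0 := CharTwo.two_eq_zero
  have h2Ω : (2 : AlgebraicClosure K) = 0 := by
    have := congrArg (algebraMap K (AlgebraicClosure K)) h2K
    rwa [map_ofNat, map_zero] at this
  -- the valuation
  have : Fact (Nat.Prime 2) := ⟨Nat.prime_two⟩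
  let _ : Algebra (ZMod 2) K := ZMod.algebra K 2
  obtain ⟨Vs, hVs⟩ := Pool.Agent.H3.HP.val 2 K t (by
    rw [transcendental_iff]
    intro p hp
    apply ht
    rw [← hp, aeval_def]
    congr 1)
  let v := Vs.valuation
  let vM : Valuation M Vs.ValueGroup := v.comap M.subtype
  have hvM : ∀ b : M, ∃ x, vM b < vM x := by
    intro b
    by_cases hb : vM b = 0
    · exact ⟨1, by rw [hb, map_one]; exact zero_lt_one⟩
    · refine ⟨tM * b, ?_⟩
      rw [map_mul]
      exact lt_mul_of_one_lt_left (zero_lt_iff.2 hb) hVs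
  -- the elliptic curve
  have h13 : W'.a₁ ≠ 0 ∨ W'.a₃ ≠ 0 := by
    by_contra hcon
    push Not at hcon
    have hΔ : (W'⁄K).Δ = 0 := by
      have h1 : (W'⁄K).a₁ = 0 := by
        change algebraMap M K W'.a₁ = 0
        rw [hcon.1, map_zero]
      have h3 : (W'⁄K).a₃ = 0 := by
        change algebraMap M K W'.a₃ = 0
        rw [hcon.2, map_zero]
      simp only [WeierstrassCurve.Δ, WeierstrassCurve.b₂, WeierstrassCurve.b₄,
        WeierstrassCurve.b₆, WeierstrassCurve.b₈, h1, h3]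
      have h4 : (4 : K) = 0 := by linear_combination (2 : K) * h2K
      simp [h2K, h4]
    have h2 : IsUnit (W'⁄K).Δ := hE.isUnit
    rw [hΔ] at h2
    exact not_isUnit_zero h2
  obtain ⟨B, hB⟩ := hDUP M K M.subtype W' Vs.ValueGroup v h13
  -- the colouring
  let χ' : M →+ ULift.{u} (ZMod 2) := AddEquiv.ulift.symm.toAddMonoidHom.comp χ
  let ψ' : M →+ V × ULift.{u} (ZMod 2) := (ψ.comp M.subtype.toAddMonoidHom).prod χ'
  have hψsq : ∀ x : M, ψ' (x ^ 2) = ψ' x := by
    intro x
    have h1 : ψ ((x : K) ^ 2 + x) = 0 := (hψ _).2 ⟨x, rfl⟩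
    have h2 : χ (x ^ 2 + x) = 0 := by
      have h3 := hτ (x ^ 2 + x) (algebraMap M _ x) (by rw [map_add, map_pow])
      rw [τ.commutes] at h3
      have h4 : (((χ (x ^ 2 + x)).val : ℕ) : AlgebraicClosure K) = 0 := by
        linear_combination -h3
      have h5 : (χ (x ^ 2 + x)).val < 2 := ZMod.val_lt _
      interval_cases h6 : (χ (x ^ 2 + x)).val
      · exact (ZMod.val_eq_zero _).1 h6
      · simp at h4
    have h1' : ψ ((x : K) ^ 2) = ψ (x : K) := by
      have : (x : K) ^ 2 = ((x : K) ^ 2 + x) + x := by linear_combination -(x : K) * h2K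
      rw [this, map_add, h1, zero_add]
    have h2' : χ (x ^ 2) = χ x := by
      have : x ^ 2 = (x ^ 2 + x) + x := by linear_combination -x * h2M
      rw [this, map_add, h2, zero_add]
    change (ψ ((x : K) ^ 2), ULift.up (χ (x ^ 2))) = (ψ (x : K), ULift.up (χ x))
    rw [h1', h2']
  obtain ⟨X, hXB, hX0, hXψ⟩ := hCOL M (V × ULift.{u} (ZMod 2)) ψ' Vs.ValueGroup vM
    W'.a₁ W'.a₂ W'.a₃ W'.a₄ W'.a₆ B g0 hψsq hvM h13
  set c : M := (X ^ 3 + W'.a₂ * X ^ 2 + W'.a₄ * X + W'.a₆) / (W'.a₁ * X + W'.a₃) ^ 2 with hc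
  have hψc : ψ (c : K) = 0 := by
    have h1 : ψ (c : K) = ψ (g0 : K) := congrArg Prod.fst hXψ
    rw [h1]
    exact (hψ _).2 ⟨k0, hk0⟩
  have hχc : χ c = 1 := by
    have h1 : χ c = χ g0 := congrArg (fun p => (Prod.snd p).down) hXψ
    rw [h1, hχ]
  obtain ⟨r, hr⟩ := (hψ _).1 hψc
  have hτr : τ (algebraMap K _ r) = algebraMap K _ r + 1 := by
    have h1 := hτ c (algebraMap K _ r) (by
      rw [← map_pow, ← map_add, hr]; rfl)
    rw [h1, hχc]
    simp [ZMod.val_one]
  set d : K := (W'.a₁ : K) * X + W'.a₃ with hd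
  have hd0 : d ≠ 0 := by
    intro h
    apply hX0
    apply Subtype.ext
    exact h
  have hcd : (c : K) * d ^ 2 = (X : K) ^ 3 + W'.a₂ * (X : K) ^ 2 + W'.a₄ * X + W'.a₆ := by
    have h1 : (c : K) = ((X : K) ^ 3 + W'.a₂ * (X : K) ^ 2 + W'.a₄ * X + W'.a₆) / d ^ 2 := by
      rw [hc, hd]
      push_cast
      rfl
    rw [h1, div_mul_cancel₀ _ (pow_ne_zero 2 hd0)]
  have heq : (W'⁄K).toAffine.Equation (X : K) (d * r) := by
    rw [Affine.equation_iff]
    change (d * r) ^ 2 + (W'.a₁ : K) * X * (d * r) + (W'.a₃ : K) * (d * r) =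
      (X : K) ^ 3 + (W'.a₂ : K) * (X : K) ^ 2 + (W'.a₄ : K) * X + (W'.a₆ : K)
    rw [← hcd, ← hr, hd]
    ring
  have hns : (W'⁄K).toAffine.Nonsingular (X : K) (d * r) :=
    ((W'⁄K).toAffine.equation_iff_nonsingular).1 heq
  refine ⟨Affine.Point.some _ _ hns, hB (X : K) (d * r) hns hXB, τ.toAlgHom, ?_⟩
  rw [Affine.Point.map_some, Affine.Point.map_some, Affine.Point.neg_some]
  have e1 : τ (algebraMap K (AlgebraicClosure K) (X : K)) =
      algebraMap K (AlgebraicClosure K) (X : K) := τ.commutes X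
  have e2 : τ (algebraMap K (AlgebraicClosure K) d) = algebraMap K (AlgebraicClosure K) d :=
    τ.commutes (W'.a₁ * X + W'.a₃)
  have e3 : τ (algebraMap K (AlgebraicClosure K) (d * r)) =
      (W'⁄(AlgebraicClosure K)).toAffine.negY (algebraMap K (AlgebraicClosure K) (X : K))
        (algebraMap K (AlgebraicClosure K) (d * r)) := by
    have h1 : (W'⁄(AlgebraicClosure K)).a₁ = algebraMap K (AlgebraicClosure K) (W'.a₁ : K) := rfl
    have h3 : (W'⁄(AlgebraicClosure K)).a₃ = algebraMap K (AlgebraicClosure K) (W'.a₃ : K) := rfl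
    rw [map_mul, map_mul, e2, hτr, Affine.negY, h1, h3, hd, map_add, map_mul]
    linear_combination (algebraMap K (AlgebraicClosure K) (W'.a₁ : K) *
      algebraMap K (AlgebraicClosure K) (X : K) + algebraMap K (AlgebraicClosure K) (W'.a₃ : K)) *
      (1 + algebraMap K (AlgebraicClosure K) r) * h2Ω
  exact (Affine.Point.some.injEq _ _ _ _ _ _).mpr ⟨e1, e3⟩

/-- **infinite rank in characteristic two** -/
theorem rk2 (hCOL : T_COL.{u}) (hQF : T_QF.{u}) (hTAU : T_TAU.{u}) (hDUP : T_DUP.{u}) :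
    T_RK2.{u} := by
  intro K V _ _ _ _ ψ t E hE hψ ht hfin
  classical
  obtain ⟨T, hT⟩ := Pool.Agent.H23.exists_finset_of_finite _ hfin
  obtain ⟨S, W', hW', htS, hTS⟩ := exists_model t E T
  subst hW'
  obtain ⟨A, hA⟩ := closure_top S
  obtain ⟨P, hP, τ, hτ⟩ := rk2_core hCOL hQF hTAU hDUP K V ψ t hψ ht _ A hA htS W' hE
  obtain ⟨n, hn, hmem⟩ := hT P
  have hle : AddSubgroup.closure (T : Set (W'⁄K).toAffine.Point) ≤
      (Affine.Point.map (W' := W') (Algebra.ofId (Subfield.closure (S : Set K)) K)).range := by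
    rw [AddSubgroup.closure_le]
    intro R hR
    rcases R with _ | ⟨x, y, h⟩
    · exact zero_mem _
    · obtain ⟨hx, hy⟩ := hTS _ hR x y h rfl
      have h' : (W'⁄(Subfield.closure (S : Set K))).toAffine.Nonsingular
          (⟨x, hx⟩ : Subfield.closure (S : Set K)) ⟨y, hy⟩ :=
        (Affine.baseChange_nonsingular (W := W')
          (f := Algebra.ofId (Subfield.closure (S : Set K)) K)
          (Algebra.ofId (Subfield.closure (S : Set K)) K).injective _ _).1 h
      exact ⟨Affine.Point.some _ _ h', rfl⟩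
  obtain ⟨Q, hQ⟩ := hle hmem
  set f1 := IsScalarTower.toAlgHom (Subfield.closure (S : Set K)) K (AlgebraicClosure K)
  have h1 : Affine.Point.map (W' := W') τ (Affine.Point.map (W' := W') f1 (n • P)) =
      Affine.Point.map (W' := W') f1 (n • P) := by
    rw [← hQ, Affine.Point.map_map f1, Affine.Point.map_map _ f1, Affine.Point.map_map]
    have h0 : (τ.comp f1).comp (Algebra.ofId (Subfield.closure (S : Set K)) K) =
        f1.comp (Algebra.ofId (Subfield.closure (S : Set K)) K) := Subsingleton.elim _ _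
    rw [h0]
  rw [map_nsmul, map_nsmul, hτ] at h1
  have h3 : Affine.Point.map (W' := W') f1 ((2 * n) • P) = 0 := by
    rw [map_nsmul, two_mul, add_nsmul]
    nth_rewrite 1 [← h1]
    rw [smul_neg, neg_add_cancel]
  have h4 : (2 * n) • P = 0 := Affine.Point.map_injective (W' := W') f1 (by rw [h3, map_zero])
  exact hP (2 * n) (by omega) h4

end Pool.Agent.H13.EC
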